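import Pool.Agent.Helper13_Eng2.Stmts

/-!
# Squad ENG, part 2: module VOD
-/

set_option autoImplicit false

namespace Pool.Agent.Eng.H59

/-- (VOD) -/
theorem vod (hbr : HbrStmt) (hvra : VraStmt) (hvrk : VrkStmt) : VodStmt := by
  intro K _ _ _ q m p c hq hm hp hp2 hpq hc hdvd hj
  have hq2 := hq.two_le
  -- `star` is not trivial
  have hstar : ∃ x : K, star x ≠ x := by
    by_contra hno
    push Not at hno
    have : Fintype K := Fintype.ofFinite K
    have h1 : ∀ x : K, x ^ q = x := fun x => by rw [← hq.star, hno]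
    obtain ⟨g, hg⟩ := IsCyclic.exists_ofOrder_eq_natCard (α := Kˣ)
    rw [Nat.card_units, hq.card] at hg
    have h2 : g ^ (q - 1) = 1 := by
      have h3 : g ^ q = g := Units.ext (by rw [Units.val_pow_eq_pow_val]; exact h1 _)
      have h4 : q = (q - 1) + 1 := by omega
      rw [h4, pow_succ] at h3
      exact mul_eq_right.1 h3
    have h3 := Nat.le_of_dvd (by omega) (orderOf_dvd_of_pow_eq_one h2)
    rw [hg] at h3
    have h4 : q * 2 ≤ q ^ 2 := by rw [sq]; exact Nat.mul_le_mul_left q hq2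
    omega
  -- the field
  obtain ⟨ch, hch⟩ := CharP.exists K
  have hchp : ch.Prime := CharP.char_is_prime K ch
  have : Fact ch.Prime := ⟨hchp⟩
  let L := FiniteField.Extension K ch (2 * m + 1)
  have hne : NeZero (2 * m + 1) := ⟨by omega⟩
  have hrank : Module.finrank K L = 2 * m + 1 := FiniteField.finrank_extension K ch (2 * m + 1)
  have hcard : Nat.card L = (q ^ 2) ^ (2 * m + 1) := by
    rw [← hq.card]; exact FiniteField.natCard_extension K ch (2 * m + 1)
  have hfL : Finite L := Module.finite_of_finite K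
  -- the element
  obtain ⟨lam, hlam⟩ : ∃ lam : L, orderOf lam = p ^ c := by
    obtain ⟨g, hg⟩ := IsCyclic.exists_ofOrder_eq_natCard (α := Lˣ)
    rw [Nat.card_units, hcard] at hg
    have h1 : p ^ c ∣ (q ^ 2) ^ (2 * m + 1) - 1 := by
      have h2 : (q ^ 2) ^ (2 * m + 1) - 1 = (q ^ (2 * m + 1) + 1) * (q ^ (2 * m + 1) - 1) := by
        have h3 := Nat.sq_sub_sq (q ^ (2 * m + 1)) 1
        rw [one_pow, ← pow_mul, mul_comm (2 * m + 1) 2, pow_mul] at h3
        exact h3
      rw [h2]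
      exact hdvd.mul_right _
    obtain ⟨N, hN⟩ := h1
    have hpos : 0 < (q ^ 2) ^ (2 * m + 1) - 1 := by
      have h2 : 1 < (q ^ 2) ^ (2 * m + 1) := Nat.one_lt_pow (by omega) (Nat.one_lt_pow (by omega) hq2)
      omega
    have hN0 : N ≠ 0 := by
      rintro rfl
      rw [mul_zero] at hN
      omega
    refine ⟨((g ^ N : Lˣ) : L), ?_⟩
    rw [orderOf_units, orderOf_pow' g hN0, hg, hN, Nat.gcd_mul_left_left]
    exact Nat.mul_div_cancel _ (Nat.pos_of_ne_zero hN0)
  obtain ⟨hadj, hnorm, hpow, hsc⟩ := hvra K L q m p c lam hq hm hrank hp hp2 hpq hc hdvd hj hlam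
  obtain ⟨b, h, hherm, hbb, hker, hscal, hlh, hbh⟩ := hvrk K L q m lam hq hm hrank hadj hnorm hpow
  have hlam0 : lam ≠ 0 := by
    rintro h0
    rw [h0, Algebra.norm_zero] at hnorm
    exact zero_ne_one hnorm
  let w0 : L →ₗ[K] L := LinearMap.mulLeft K lam
  let z0 : L →ₗ[K] L := (LinearMap.mulLeft K lam⁻¹) ∘ₗ b
  have hw0inj : Function.Injective w0 := fun x y h => mul_left_cancel₀ hlam0 h
  have hz0inj : Function.Injective z0 := by
    intro x y h
    have h1 : b x = b y := mul_left_cancel₀ (inv_ne_zero hlam0) h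
    have h2 := hker (x - y) (by rw [map_sub, h1, sub_self])
    exact sub_eq_zero.1 h2
  let w : L ≃ₗ[K] L := LinearEquiv.ofInjectiveEndo w0 hw0inj
  let z : L ≃ₗ[K] L := LinearEquiv.ofInjectiveEndo z0 hz0inj
  have hw1 : ∀ x, w x = lam * x := fun x => rfl
  have hz1 : ∀ x, z x = lam⁻¹ * b x := fun x => rfl
  have hbraid : z * w * z = w * z * w := by
    ext x
    change lam⁻¹ * b (lam * (lam⁻¹ * b x)) = lam * (lam⁻¹ * b (lam * x))
    rw [mul_inv_cancel_left₀ hlam0, mul_inv_cancel_left₀ hlam0, hbb, inv_mul_cancel_left₀ hlam0]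
  have hdetw : LinearMap.det (w : L →ₗ[K] L) = 1 := by
    have h1 : (w : L →ₗ[K] L) = LinearMap.mulLeft K lam := by
      ext x
      rfl
    rw [h1]
    exact hnorm
  have hcoe : ∀ a b : L ≃ₗ[K] L,
      ((a * b : L ≃ₗ[K] L) : L →ₗ[K] L) = (a : L →ₗ[K] L) * (b : L →ₗ[K] L) :=
    fun a b => rfl
  have hdetz : LinearMap.det (z : L →ₗ[K] L) = 1 := by
    have h1 := congrArg (fun t : L ≃ₗ[K] L => LinearMap.det (t : L →ₗ[K] L)) hbraid
    simp only [hcoe, map_mul, hdetw, mul_one, one_mul] at h1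
    have h2 : LinearMap.det (z : L →ₗ[K] L) ≠ 0 := by
      intro h0
      exact (LinearEquiv.isUnit_det' z).ne_zero h0
    exact mul_left_cancel₀ h2 (by rw [h1, mul_one])
  have hwmem : w ∈ SUV h := ⟨fun u v => by rw [hw1, hw1]; exact hlh u v, hdetw⟩
  have hinvh : ∀ x y, h (lam⁻¹ * x) (lam⁻¹ * y) = h x y := by
    intro x y
    have h1 := hlh (lam⁻¹ * x) (lam⁻¹ * y)
    rw [mul_inv_cancel_left₀ hlam0, mul_inv_cancel_left₀ hlam0] at h1
    exact h1.symm
  have hzmem : z ∈ SUV h := ⟨fun u v => by rw [hz1, hz1, hinvh]; exact hbh u v, hdetz⟩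
  have hwpow : ∀ (n : ℕ) (x : L), (w ^ n : L ≃ₗ[K] L) x = lam ^ n * x := by
    intro n
    induction n with
    | zero => intro x; simp
    | succ n ih =>
      intro x
      rw [pow_succ]
      change (w ^ n : L ≃ₗ[K] L) (lam * x) = _
      rw [ih]
      ring
  refine hbr K L h (2 * m + 1) (p ^ c) hstar hherm hrank w z hwmem hzmem hbraid ?_
  intro d a _ hd
  obtain ⟨a', ha'⟩ := hscal (lam ^ (2 * d)) a (fun x => by
    have h2 := hd x
    rw [hwpow, hwpow] at h2
    change lam⁻¹ * b (lam ^ (2 * d) * x) = a • (lam ^ (2 * d) * (lam⁻¹ * b x)) at h2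
    have h3 := congrArg (fun t => lam * t) h2
    rw [mul_inv_cancel_left₀ hlam0, mul_smul_comm] at h3
    rw [h3]
    congr 1
    rw [mul_left_comm lam, mul_inv_cancel_left₀ hlam0])
  exact hsc d a' ha'

end Pool.Agent.Eng.H59
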