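import Pool.Agent.Helper13_Eng2.Stmts

/-!
# Squad ENG, part 2: module VRA
-/

set_option autoImplicit false

namespace Pool.Agent.Eng.H59

/-- (VRA) -/
theorem vra : VraStmt := by
  intro K L _ _ _ _ _ _ q m p c lam hq hm hn hp hp2 hpq hc hdvd hj hord
  have hfL : Finite L := Module.finite_of_finite K
  have hq2 := hq.two_le
  have hlam0 : lam ≠ 0 := by
    rintro rfl
    have h1 : (0 : L) ^ (p ^ c) = 1 := by rw [← hord]; exact pow_orderOf_eq_one _
    rw [zero_pow (pow_ne_zero _ hp.ne_zero)] at h1
    exact zero_ne_one h1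
  have hlamc : lam ^ (p ^ c) = 1 := by rw [← hord]; exact pow_orderOf_eq_one _
  have hpp : p ∣ q ^ (2 * m + 1) + 1 := (dvd_pow_self p (by omega)).trans hdvd
  -- `p` does not divide `q - 1`
  have hpq1 : ¬ p ∣ q - 1 := by
    intro h
    have h1 : q ≡ 1 [MOD p] := ((Nat.modEq_iff_dvd' (by omega)).2 h).symm
    have h2 : q ^ (2 * m + 1) + 1 ≡ 1 ^ (2 * m + 1) + 1 [MOD p] := (h1.pow _).add_right 1
    have h3 : 0 ≡ 2 [MOD p] := by
      have h4 : q ^ (2 * m + 1) + 1 ≡ 0 [MOD p] := (Nat.modEq_zero_iff_dvd).2 hpp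
      have h5 := h4.symm.trans h2
      rwa [one_pow] at h5
    have h4 : p ∣ 2 := (Nat.modEq_zero_iff_dvd).1 h3.symm
    exact hp2 ((Nat.prime_dvd_prime_iff_eq hp Nat.prime_two).1 h4)
  have hcop : Nat.Coprime (p ^ c) (q ^ 2 - 1) := by
    apply Nat.Coprime.pow_left
    rw [Nat.Prime.coprime_iff_not_dvd hp]
    have h1 : q ^ 2 - 1 = (q + 1) * (q - 1) := by
      have := Nat.sq_sub_sq q 1
      rwa [one_pow] at this
    rw [h1, Nat.Prime.dvd_mul hp]
    push Not
    exact ⟨hpq, hpq1⟩
  have hone : ∀ a : K, a ^ (p ^ c) = 1 → a = 1 := by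
    intro a ha
    have ha0 : a ≠ 0 := by
      rintro rfl
      rw [zero_pow (pow_ne_zero _ hp.ne_zero)] at ha
      exact zero_ne_one ha
    have h1 : a ^ (q ^ 2 - 1) = 1 := by
      have : Fintype K := Fintype.ofFinite K
      have h2 := FiniteField.pow_card_sub_one_eq_one a ha0
      rwa [← Nat.card_eq_fintype_card, hq.card] at h2
    have h2 : orderOf a ∣ Nat.gcd (p ^ c) (q ^ 2 - 1) :=
      Nat.dvd_gcd (orderOf_dvd_of_pow_eq_one ha) (orderOf_dvd_of_pow_eq_one h1)
    rw [hcop] at h2
    exact orderOf_eq_one_iff.1 (Nat.dvd_one.1 h2)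
  refine ⟨?_, ?_, ?_, ?_⟩
  · -- the generated subfield
    let E : IntermediateField K L := IntermediateField.adjoin K {lam}
    have hint : IsIntegral K lam := Algebra.IsIntegral.isIntegral lam
    have hE : E.toSubalgebra = Algebra.adjoin K {lam} :=
      IntermediateField.adjoin_simple_toSubalgebra_of_isAlgebraic hint.isAlgebraic
    have hlamE : lam ∈ E := IntermediateField.mem_adjoin_simple_self K lam
    have hfE : Finite E := Subtype.finite
    have hcard : Nat.card E = q ^ (2 * Module.finrank K E) := by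
      have h1 := Module.natCard_eq_pow_finrank (K := K) (V := E)
      rw [h1, hq.card, ← pow_mul]
    have hpos : 0 < Module.finrank K E := Module.finrank_pos
    have h1 : p ^ c ∣ q ^ (2 * Module.finrank K E) - 1 := by
      rw [← hcard, ← hord]
      apply orderOf_dvd_of_pow_eq_one
      have : Fintype E := Fintype.ofFinite E
      have h2 := FiniteField.pow_card_sub_one_eq_one (⟨lam, hlamE⟩ : E) (by
        intro h
        exact hlam0 (congrArg Subtype.val h))
      rw [← Nat.card_eq_fintype_card] at h2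
      have h3 := congrArg (fun t : E => (t : L)) h2
      simpa using h3
    have h2 : Module.finrank K E = 2 * m + 1 := by
      have h3 : Module.finrank K E ≤ 2 * m + 1 := by
        rw [← hn]
        exact Submodule.finrank_le (Subalgebra.toSubmodule E.toSubalgebra)
      by_contra h4
      exact hj _ hpos (by omega) h1
    have h3 : E = ⊤ := by
      apply IntermediateField.eq_of_le_of_finrank_eq le_top
      rw [IntermediateField.finrank_top', h2, hn]
    rw [← hE, h3]
    rfl
  · apply hone
    rw [← map_pow, hlamc, map_one]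
  · rw [← orderOf_dvd_iff_pow_eq_one, hord]
    exact hdvd
  · intro d a hd
    have h1 : a = 1 := by
      apply hone
      apply (algebraMap K L).injective
      rw [map_pow, ← hd, ← pow_mul, mul_comm, pow_mul, hlamc, one_pow, map_one]
    rw [h1, map_one] at hd
    have h2 : p ^ c ∣ 2 * d := by
      rw [← hord]
      exact orderOf_dvd_of_pow_eq_one hd
    have hcop2 : Nat.Coprime (p ^ c) 2 := by
      apply Nat.Coprime.pow_left
      exact (Nat.coprime_primes hp Nat.prime_two).2 hp2
    exact hcop2.dvd_of_dvd_mul_left h2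

end Pool.Agent.Eng.H59
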