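import Pool.Agent.Helper13_Eng2.Stmts

/-!
# Squad ENG, part 2: module X5
-/

set_option autoImplicit false

namespace Pool.Agent.Eng.H59

open Matrix

section
variable {F : Type} [Field F]

/-- a `2 × 2` matrix in blocks -/
def mk2 (a b c d : F) : Matrix (Fin 1 ⊕ Fin 1) (Fin 1 ⊕ Fin 1) F :=
  fromBlocks (of fun _ _ => a) (of fun _ _ => b) (of fun _ _ => c) (of fun _ _ => d)

theorem mk2_mul (a b c d a' b' c' d' : F) : mk2 a b c d * mk2 a' b' c' d' =
    mk2 (a * a' + b * c') (a * b' + b * d') (c * a' + d * c') (c * b' + d * d') := by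
  unfold mk2
  rw [fromBlocks_multiply]
  congr 1 <;>
  · ext i j
    simp [Matrix.mul_apply]

theorem mk2_one : mk2 (1 : F) 0 0 1 = 1 := by
  ext i j
  rcases i with i | i <;> rcases j with j | j <;>
    simp [mk2, Matrix.one_apply, Subsingleton.elim i j]

omit [Field F] in
theorem mk2_inj {a b c d a' b' c' d' : F} (h : mk2 a b c d = mk2 a' b' c' d') :
    a = a' ∧ b = b' ∧ c = c' ∧ d = d' := by
  have h1 := congrFun (congrFun h (Sum.inl 0)) (Sum.inl 0)
  have h2 := congrFun (congrFun h (Sum.inl 0)) (Sum.inr 0)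
  have h3 := congrFun (congrFun h (Sum.inr 0)) (Sum.inl 0)
  have h4 := congrFun (congrFun h (Sum.inr 0)) (Sum.inr 0)
  exact ⟨h1, h2, h3, h4⟩

theorem mk2_mem {a b c d : F} (h : a * d - b * c = 1) :
    mk2 a b c d ∈ symplecticGroup (Fin 1) F := by
  rw [SymplecticGroup.mem_iff]
  have hJ : J (Fin 1) F = mk2 0 (-1) 1 0 := by
    unfold J mk2
    congr 1 <;>
    · ext i j
      simp [Matrix.one_apply, Subsingleton.elim i j]
  have hT : (mk2 a b c d)ᵀ = mk2 a c b d := by
    unfold mk2
    rw [fromBlocks_transpose]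
    rfl
  rw [hJ, hT, mk2_mul, mk2_mul]
  congr 1
  · ring
  · linear_combination -h
  · linear_combination h
  · ring

end

theorem z5a : (5 : ZMod 5) = 0 := by decide

theorem z5b (r d : ℕ) (h3 : (3 : ZMod 5) ^ (r + d) = 3 ^ r) : 4 ∣ d := by
  have hu : IsUnit (3 : ZMod 5) := IsUnit.of_mul_eq_one 2 (by decide)
  rw [pow_add] at h3
  have h4 : (3 : ZMod 5) ^ d = 1 := (hu.pow r).mul_left_cancel (by rw [h3, mul_one])
  have h5 : (3 : ZMod 5) ^ (d % 4) = 1 := by
    have h6 : (3 : ZMod 5) ^ 4 = 1 := by decide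
    rw [← Nat.div_add_mod d 4, pow_add, pow_mul, h6, one_pow, one_mul] at h4
    exact h4
  have h6 : d % 4 < 4 := Nat.mod_lt _ (by norm_num)
  have h7 : ∀ i : ℕ, i < 4 → (3 : ZMod 5) ^ i = 1 → i = 0 := by decide
  exact Nat.dvd_of_mod_eq_zero (h7 _ h6 h5)

theorem x5 (hab : AbStmt) (hcen : SpCenterMatStmt) : X5Stmt := by
  intro F _ om h2 hom
  have hneg : ∀ x : F, -x = x := by
    intro x
    have h3 : x + x = 0 := by rw [← two_mul, h2, zero_mul]
    exact neg_eq_of_add_eq_zero_left h3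
  have hom2 : om ^ 2 = om + 1 := by
    have h3 : om ^ 2 = -(om + 1) := by linear_combination hom
    rw [h3, hneg]
  have hom3 : om ^ 3 = 1 := by
    linear_combination (om - 1) * hom
  have hdet1 : (0 : F) * om - 1 * 1 = 1 := by linear_combination -h2
  have hcen1 : ∀ g : Sp 1 F, g ∈ Subgroup.center (Sp 1 F) → g = 1 := by
    intro g hg
    apply Subtype.ext
    rcases (hcen F 1 g).1 hg with h | h
    · exact h
    · rw [h]
      have h3 : (-1 : Matrix (Fin 1 ⊕ Fin 1) (Fin 1 ⊕ Fin 1) F) = 1 := by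
        ext i j
        rw [Matrix.neg_apply, hneg]
      exact h3
  constructor
  · -- 4
    let w : Sp 1 F := ⟨mk2 0 1 1 om, mk2_mem hdet1⟩
    let y : Sp 1 F := ⟨mk2 0 1 1 0, mk2_mem (by linear_combination -h2)⟩
    have hw4 : (w : Matrix (Fin 1 ⊕ Fin 1) (Fin 1 ⊕ Fin 1) F) ^ 4 = mk2 om 1 1 0 := by
      have h3 : (mk2 0 1 1 om : Matrix (Fin 1 ⊕ Fin 1) (Fin 1 ⊕ Fin 1) F) ^ 4 =
          (mk2 0 1 1 om * mk2 0 1 1 om) * (mk2 0 1 1 om * mk2 0 1 1 om) := by
        noncomm_ring
      change (mk2 0 1 1 om : Matrix (Fin 1 ⊕ Fin 1) (Fin 1 ⊕ Fin 1) F) ^ 4 = _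
      rw [h3, mk2_mul, mk2_mul]
      congr 1
      · linear_combination hom - om * h2
      · linear_combination om * h2 + (om - 1) * hom
      · linear_combination om * h2 + (om - 1) * hom
      · linear_combination (om ^ 2 - om + 1) * hom + om ^ 2 * h2
    have hw5 : w ^ 5 = 1 := by
      apply Subtype.ext
      change (w : Matrix (Fin 1 ⊕ Fin 1) (Fin 1 ⊕ Fin 1) F) ^ 5 = 1
      rw [pow_succ, hw4]
      change mk2 om 1 1 0 * mk2 0 1 1 om = 1
      rw [mk2_mul, ← mk2_one]
      congr 1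
      · ring
      · linear_combination om * h2
      · ring
      · ring
    have hy2 : y * y = 1 := by
      apply Subtype.ext
      change mk2 0 1 1 0 * mk2 0 1 1 0 = (1 : Matrix (Fin 1 ⊕ Fin 1) (Fin 1 ⊕ Fin 1) F)
      rw [mk2_mul, ← mk2_one]
      congr 1 <;> ring
    have hyw : y⁻¹ * w * y = w⁻¹ := by
      rw [inv_eq_of_mul_eq_one_right hy2]
      rw [← mul_eq_one_iff_eq_inv]
      apply Subtype.ext
      change mk2 0 1 1 0 * mk2 0 1 1 om * mk2 0 1 1 0 * mk2 0 1 1 om =
        (1 : Matrix (Fin 1 ⊕ Fin 1) (Fin 1 ⊕ Fin 1) F)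
      rw [mk2_mul, mk2_mul, mk2_mul, ← mk2_one]
      congr 1
      · ring
      · linear_combination om * h2
      · ring
      · ring
    have hfact : Fact (Nat.Prime 5) := ⟨by norm_num⟩
    have hord : orderOf w = 5 := by
      apply orderOf_eq_prime hw5
      intro h
      have h3 : mk2 0 1 1 om = (mk2 1 0 0 1 : Matrix (Fin 1 ⊕ Fin 1) (Fin 1 ⊕ Fin 1) F) := by
        rw [mk2_one]
        exact congrArg Subtype.val h
      exact zero_ne_one (mk2_inj h3).1
    let f : Multiplicative (ZMod 5) →* Sp 1 F :=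
      { toFun := fun m => w ^ (ZMod.val m.toAdd)
        map_one' := by
          change w ^ (ZMod.val (0 : ZMod 5)) = 1
          rw [ZMod.val_zero, pow_zero]
        map_mul' := fun a b => by
          change w ^ (ZMod.val (a.toAdd + b.toAdd)) = _
          rw [ZMod.val_add, ← pow_add]
          have h3 := pow_mod_orderOf w (ZMod.val a.toAdd + ZMod.val b.toAdd)
          rwa [hord] at h3 }
    intro d hd hl
    obtain ⟨r, hr⟩ := hab (Sp 1 F) (Subgroup.center _) (ZMod 5) f y (-1) (fun m hm => by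
      have h3 : w ^ (ZMod.val m) = 1 := hcen1 _ hm
      have h4 := orderOf_dvd_of_pow_eq_one h3
      rw [hord] at h4
      have h5 := ZMod.val_lt m
      have h6 : ZMod.val m = 0 := Nat.eq_zero_of_dvd_of_lt h4 h5
      exact (ZMod.val_eq_zero m).1 h6) (fun m => by
      change y⁻¹ * w ^ (ZMod.val m) * y = f (Multiplicative.ofAdd (-m))
      rw [ofAdd_neg, map_inv]
      change _ = (w ^ (ZMod.val m))⁻¹
      rw [← inv_pow, ← hyw]
      have h3 := conj_pow (i := ZMod.val m) (a := y⁻¹) (b := w)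
      rw [inv_inv] at h3
      exact h3.symm) d hl
    -- evaluate at `1`
    have hT : ∀ k : ℕ, ((-1 - 1 : AddMonoid.End (ZMod 5)) ^ k) 1 = 3 ^ k := by
      intro k
      induction k with
      | zero => rfl
      | succ k ih =>
        rw [pow_succ', pow_succ']
        change (-1 - 1 : AddMonoid.End (ZMod 5)) (((-1 - 1 : AddMonoid.End (ZMod 5)) ^ k) 1) = _
        rw [ih]
        change -((3 : ZMod 5) ^ k) - 3 ^ k = 3 * 3 ^ k
        linear_combination (-(3 : ZMod 5) ^ k) * z5a
    have h3 : ((-1 - 1 : AddMonoid.End (ZMod 5)) ^ (r + d)) 1 =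
        ((-1 - 1 : AddMonoid.End (ZMod 5)) ^ r) 1 := by rw [hr]
    rw [hT, hT] at h3
    exact z5b r d h3
  · -- 3
    let y : Sp 1 F := ⟨mk2 om 0 0 (om ^ 2), mk2_mem (by linear_combination hom3)⟩
    let yi : Sp 1 F := ⟨mk2 (om ^ 2) 0 0 om, mk2_mem (by linear_combination hom3)⟩
    let u : F → Sp 1 F := fun a => ⟨mk2 1 a 0 1, mk2_mem (by ring)⟩
    have hyi : y⁻¹ = yi := by
      rw [inv_eq_iff_mul_eq_one]
      apply Subtype.ext
      change mk2 om 0 0 (om ^ 2) * mk2 (om ^ 2) 0 0 om =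
        (1 : Matrix (Fin 1 ⊕ Fin 1) (Fin 1 ⊕ Fin 1) F)
      rw [mk2_mul, ← mk2_one]
      congr 1
      · linear_combination hom3
      · ring
      · ring
      · linear_combination hom3
    let f : Multiplicative F →* Sp 1 F :=
      { toFun := fun m => u m.toAdd
        map_one' := by
          apply Subtype.ext
          change mk2 1 0 0 1 = (1 : Matrix (Fin 1 ⊕ Fin 1) (Fin 1 ⊕ Fin 1) F)
          exact mk2_one
        map_mul' := fun a b => by
          apply Subtype.ext
          change mk2 1 (a.toAdd + b.toAdd) 0 1 = mk2 1 a.toAdd 0 1 * mk2 1 b.toAdd 0 1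
          rw [mk2_mul]
          congr 1 <;> ring }
    intro d hd hl
    obtain ⟨r, hr⟩ := hab (Sp 1 F) (Subgroup.center _) F f y (AddMonoidHom.mulLeft om)
      (fun m hm => by
        have h3 : u m = 1 := hcen1 _ hm
        have h4 : mk2 1 m 0 1 = (mk2 1 0 0 1 : Matrix (Fin 1 ⊕ Fin 1) (Fin 1 ⊕ Fin 1) F) := by
          rw [mk2_one]
          exact congrArg Subtype.val h3
        exact (mk2_inj h4).2.1) (fun m => by
        change y⁻¹ * u m * y = u (om * m)
        rw [hyi]
        apply Subtype.ext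
        change mk2 (om ^ 2) 0 0 om * mk2 1 m 0 1 * mk2 om 0 0 (om ^ 2) = mk2 1 (om * m) 0 1
        rw [mk2_mul, mk2_mul]
        congr 1
        · linear_combination hom3
        · linear_combination (om * m) * hom3
        · ring
        · linear_combination hom3) d hl
    let T : AddMonoid.End F := AddMonoidHom.mulLeft om
    have hT : ∀ k : ℕ, ((T - 1) ^ k) 1 = (om - 1) ^ k := by
      intro k
      induction k with
      | zero =>
        rw [pow_zero, pow_zero]
        rfl
      | succ k ih =>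
        rw [pow_succ', pow_succ']
        change (T - 1) (((T - 1) ^ k) 1) = _
        rw [ih]
        change om * (om - 1) ^ k - (om - 1) ^ k = (om - 1) * (om - 1) ^ k
        ring
    have h3 : ((T - 1) ^ (r + d)) 1 = ((T - 1) ^ r) 1 := congrArg (fun t : AddMonoid.End F => t 1) hr
    rw [hT, hT, pow_add] at h3
    have homsub : om - 1 = om ^ 2 := by linear_combination (-1 : F) * hom + om * h2
    have hne : om ≠ 0 := by
      rintro rfl
      norm_num at hom3
    have h30 : (om - 1) ^ r ≠ 0 := pow_ne_zero _ (by rw [homsub]; exact pow_ne_zero _ hne)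
    have h4 : (om - 1) ^ d = 1 := mul_left_cancel₀ h30 (by rw [h3, mul_one])
    rw [homsub, ← pow_mul] at h4
    have hord : orderOf om = 3 := by
      have hfact : Fact (Nat.Prime 3) := ⟨by norm_num⟩
      apply orderOf_eq_prime hom3
      rintro rfl
      have h5 : (1 : F) = 0 := by linear_combination hom - h2
      exact one_ne_zero h5
    have h5 : 3 ∣ 2 * d := by rw [← hord]; exact orderOf_dvd_of_pow_eq_one h4
    omega

end Pool.Agent.Eng.H59
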